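import Pool.Agent.Y553.PL.Stm

set_option autoImplicit false

/-! Reachability in the example (helper74). -/

namespace Pool.Agent.Y74.PL

open Pool.Agent.Y553.PL Pool.Agent.Results.MP_abe753_lc.PlusNotLocal

variable {q L : ℕ}

theorem c0 {x : Vt q L} : x ∈ (ex q L).colour 0 ↔ ∃ p, x = .s p := Iff.rfl

theorem c1 {x : Vt q L} : x ∈ (ex q L).colour 1 ↔ ∃ i, x = .a i := Iff.rfl

theorem c5 {x : Vt q L} : x ∈ (ex q L).colour 5 ↔
    ∃ i : Fin L, x = .s (true, i) ∧ i.val + 1 = L := Iff.rfl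

theorem c6 {x : Vt q L} : x ∈ (ex q L).colour 6 ↔
    ∃ (t : Bool) (i : Fin L), x = .s (t, i) ∧ i.val = 0 := Iff.rfl

theorem c7 {x : Vt q L} : x ∈ (ex q L).colour 7 ↔
    ∃ (t : Bool) (i : Fin L), x = .s (t, i) ∧ i.val % 3 = 0 := Iff.rfl

theorem c8 {x : Vt q L} : x ∈ (ex q L).colour 8 ↔
    ∃ (t : Bool) (i : Fin L), x = .s (t, i) ∧ i.val % 3 = 1 := Iff.rfl

theorem c9 {x : Vt q L} : x ∈ (ex q L).colour 9 ↔
    ∃ (t : Bool) (i : Fin L), x = .s (t, i) ∧ i.val % 3 = 2 := Iff.rfl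

theorem adj {p p' : Bool × Fin L} : (ex q L).graph.Adj (.s p) (.s p') ↔
    (p.1 = p'.1 ∧ p.2.val + 1 = p'.2.val) ∨ (p'.1 = p.1 ∧ p'.2.val + 1 = p.2.val) := Iff.rfl

theorem s7 {p : Bool × Fin L} : (Vt.s p : Vt q L) ∈ (ex q L).colour 7 ↔ p.2.val % 3 = 0 := by
  rw [c7]
  constructor
  · rintro ⟨t, i, h, hi⟩
    cases h
    exact hi
  · intro h
    exact ⟨p.1, p.2, rfl, h⟩

theorem s8 {p : Bool × Fin L} : (Vt.s p : Vt q L) ∈ (ex q L).colour 8 ↔ p.2.val % 3 = 1 := by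
  rw [c8]
  constructor
  · rintro ⟨t, i, h, hi⟩
    cases h
    exact hi
  · intro h
    exact ⟨p.1, p.2, rfl, h⟩

theorem s9 {p : Bool × Fin L} : (Vt.s p : Vt q L) ∈ (ex q L).colour 9 ↔ p.2.val % 3 = 2 := by
  rw [c9]
  constructor
  · rintro ⟨t, i, h, hi⟩
    cases h
    exact hi
  · intro h
    exact ⟨p.1, p.2, rfl, h⟩

theorem step_iff {p p' : Bool × Fin L} : Step (ex q L) (.s p) (.s p') ↔
    p.1 = p'.1 ∧ p.2.val + 1 = p'.2.val := by
  unfold Step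
  rw [adj, s7, s8, s9, s7, s8, s9]
  constructor
  · rintro ⟨h | h, h1⟩
    · exact h
    · exfalso
      obtain ⟨-, h2⟩ := h
      omega
  · intro h
    refine ⟨Or.inl h, ?_⟩
    obtain ⟨-, h2⟩ := h
    omega

theorem step_right {u v : Vt q L} (h : Step (ex q L) u v) : ∃ p, v = .s p := by
  rcases h.2 with ⟨-, h⟩ | ⟨-, h⟩ | ⟨-, h⟩ <;> obtain ⟨t, i, h, -⟩ := h <;> exact ⟨_, h⟩

theorem pow_path (t : Bool) (i : Fin L) (n : ℕ) : ∀ i' : Fin L, i.val ≤ i'.val →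
    i'.val ≤ i.val + n → Pow (ex q L) n (.s (t, i)) (.s (t, i')) := by
  induction n with
  | zero =>
    intro i' h1 h2
    have : i = i' := Fin.ext (by omega)
    subst this
    exact rfl
  | succ n ih =>
    intro i' h1 h2
    by_cases h3 : i'.val ≤ i.val + n
    · exact ⟨_, ⟨_, rfl⟩, ih i' h1 h3, Or.inl rfl⟩
    · have h4 : i'.val - 1 < L := by
        have := i'.2
        omega
      refine ⟨.s (t, ⟨i'.val - 1, h4⟩), ⟨_, rfl⟩, ih _ ?_ ?_, Or.inr ?_⟩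
      · show i.val ≤ i'.val - 1
        omega
      · show i'.val - 1 ≤ i.val + n
        omega
      · rw [step_iff]
        refine ⟨rfl, ?_⟩
        show i'.val - 1 + 1 = i'.val
        omega

theorem pow_comp (t : Bool) (i : Fin L) (n : ℕ) : ∀ s : Vt q L,
    Pow (ex q L) n (.s (t, i)) s → ∃ i' : Fin L, s = .s (t, i') := by
  induction n with
  | zero =>
    intro s h
    exact ⟨i, h.symm⟩
  | succ n ih =>
    rintro s ⟨w, -, h1, h2⟩
    obtain ⟨i', rfl⟩ := ih w h1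
    rcases h2 with rfl | h2
    · exact ⟨i', rfl⟩
    · obtain ⟨p, rfl⟩ := step_right h2
      rw [step_iff] at h2
      have h3 : t = p.1 := h2.1
      subst h3
      exact ⟨p.2, rfl⟩

/-- the vertices in a sum of finite types -/
def code : Vt q L → (Bool × Fin L) ⊕ Fin q ⊕ ZMod q ⊕ (Fin q × ZMod q) ⊕ (Fin q → ZMod q)
  | .s p => Sum.inl p
  | .a i => Sum.inr (Sum.inl i)
  | .b j => Sum.inr (Sum.inr (Sum.inl j))
  | .d i j => Sum.inr (Sum.inr (Sum.inr (Sum.inl (i, j))))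
  | .w g => Sum.inr (Sum.inr (Sum.inr (Sum.inr g)))

theorem code_inj : Function.Injective (code (q := q) (L := L)) := by
  intro x y h
  cases x <;> cases y <;> simp_all [code]

theorem a_inj : Function.Injective (Vt.a : Fin q → Vt q L) := by
  intro i j h
  cases h
  rfl

theorem t_EXSEM : St_EXSEM := by
  intro q L hL
  refine ⟨⟨?_, ?_⟩, ?_, ?_, ?_, ?_, ?_, ?_⟩
  · rintro u ⟨p, rfl⟩ v ⟨p', rfl⟩ v' ⟨p'', rfl⟩ h h'
    rw [step_iff] at h h'
    have h1 : p' = p'' := Prod.ext (h.1.symm.trans h'.1) (Fin.ext (by omega))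
    rw [h1]
  · rintro e - e' - e'' - ⟨t, i, rfl, hi⟩ ⟨t', i', rfl, hi'⟩ ⟨t'', i'', rfl, hi''⟩
    have h1 : i = i' := Fin.ext (by omega)
    have h2 : i = i'' := Fin.ext (by omega)
    subst h1
    subst h2
    cases t <;> cases t' <;> cases t'' <;> simp
  · rintro s ⟨p, rfl⟩
    refine ⟨.s (p.1, ⟨0, by omega⟩), ⟨_, rfl⟩, ⟨_, _, rfl, rfl⟩, ?_⟩
    refine pow_path p.1 ⟨0, by omega⟩ (L - 1) p.2 (Nat.zero_le _) ?_
    show p.2.val ≤ 0 + (L - 1)
    have := p.2.2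
    omega
  · intro i hi
    refine ⟨.s (true, ⟨L - 1, by omega⟩), ⟨_, rfl⟩, ⟨_, rfl, ?_⟩, ?_⟩
    · show L - 1 + 1 = L
      omega
    · refine pow_path true i (L - 1) ⟨L - 1, by omega⟩ ?_ ?_
      · show i.val ≤ L - 1
        omega
      · show L - 1 ≤ i.val + (L - 1)
        omega
  · rintro i n s h ⟨j, hj, -⟩
    obtain ⟨i', rfl⟩ := pow_comp false i n s h
    cases hj
  · intro hq
    have : NeZero q := ⟨hq⟩
    exact Finite.of_injective _ code_inj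
  · have h1 : (ex q L).colour 1 = (Vt.a : Fin q → Vt q L) '' Set.univ := by
      ext x
      rw [c1, Set.image_univ, Set.mem_range]
      exact ⟨fun ⟨i, h⟩ => ⟨i, h.symm⟩, fun ⟨i, h⟩ => ⟨i, h.symm⟩⟩
    rw [h1, Set.ncard_image_of_injective _ a_inj, Set.ncard_univ, Nat.card_fin]
  · intro N hN
    refine ⟨fun j => .a (Fin.castLE hN j), fun j => ⟨_, rfl⟩, fun j j' h => ?_⟩
    exact Fin.castLE_injective hN (a_inj h)

end Pool.Agent.Y74.PL
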